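import Pool.Agent.Lib.MP_193dd3_co_S.FinS

/-!
Sets of points of the affine plane over `ZMod p` with at most three points on every line and with a
positive proportion of their points on one conic, or on each of two conics.
-/

namespace Pool.Agent.Results.MP_193dd3_co.ConicStructure

/-- At most three points of `A` on every line `{x + s v}`, `v ≠ 0`. -/
def NoFourCollinear {p : ℕ} (A : Finset (ZMod p × ZMod p)) : Prop :=
  ∀ x v : ZMod p × ZMod p, v ≠ 0 →
    ({Q : ZMod p × ZMod p | Q ∈ A ∧ ∃ s : ZMod p, Q = x + s • v}).ncard ≤ 3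

/-- The polynomial `f 0 x² + f 1 x y + f 2 y² + f 3 x + f 4 y + f 5` at the point `Q = (x, y)`. -/
def quad {p : ℕ} (f : Fin 6 → ZMod p) (Q : ZMod p × ZMod p) : ZMod p :=
  f 0 * Q.1 ^ 2 + f 1 * (Q.1 * Q.2) + f 2 * Q.2 ^ 2 + f 3 * Q.1 + f 4 * Q.2 + f 5

theorem noFour_of {p : ℕ} [Fact p.Prime] (A : Finset (ZMod p × ZMod p))
    (hA : NoFourCollinear A) : Pool.Agent.MP193G.NoFour A := by
  classical
  intro a b c hab
  -- a point and a direction of the line `a x + b y + c = 0`
  obtain ⟨x, hx⟩ : ∃ x : ZMod p × ZMod p, a * x.1 + b * x.2 + c = 0 := by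
    by_cases ha : a = 0
    · have hb : b ≠ 0 := by
        rcases hab with h | h
        · exact absurd ha h
        · exact h
      exact ⟨(0, -c / b), by field_simp; ring⟩
    · exact ⟨(-c / a, 0), by field_simp; ring⟩
  have hv : ((-b, a) : ZMod p × ZMod p) ≠ 0 := by
    intro h
    have h1 := congrArg Prod.fst h
    have h2 := congrArg Prod.snd h
    simp only [Prod.fst_zero, Prod.snd_zero, neg_eq_zero] at h1 h2
    rcases hab with h' | h'
    · exact h' h2
    · exact h' h1
  have h := hA x (-b, a) hv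
  have e : {Q : ZMod p × ZMod p | Q ∈ A ∧ ∃ s : ZMod p, Q = x + s • ((-b, a) : ZMod p × ZMod p)} =
      ((A.filter (fun Q => a * Q.1 + b * Q.2 + c = 0) : Finset (ZMod p × ZMod p)) :
        Set (ZMod p × ZMod p)) := by
    ext Q
    simp only [Set.mem_ofPred_eq, Finset.coe_filter]
    refine and_congr_right (fun _ => ?_)
    constructor
    · rintro ⟨s, rfl⟩
      simp only [Prod.fst_add, Prod.snd_add, Prod.smul_fst, Prod.smul_snd, smul_eq_mul]
      linear_combination hx
    · intro hQ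
      by_cases ha : a = 0
      · have hb : b ≠ 0 := by
          rcases hab with h | h
          · exact absurd ha h
          · exact h
        refine ⟨-(Q.1 - x.1) / b, ?_⟩
        have h2 : b * (Q.2 - x.2) = 0 := by
          rw [ha] at hQ hx
          linear_combination hQ - hx
        have h3 : Q.2 = x.2 := by
          rcases mul_eq_zero.mp h2 with h | h
          · exact absurd h hb
          · exact sub_eq_zero.mp h
        refine Prod.ext ?_ ?_
        · simp only [Prod.fst_add, Prod.smul_fst, smul_eq_mul]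
          field_simp
          ring
        · simp only [Prod.snd_add, Prod.smul_snd, smul_eq_mul, ha, h3]
          ring
      · refine ⟨(Q.2 - x.2) / a, ?_⟩
        refine Prod.ext ?_ ?_
        · simp only [Prod.fst_add, Prod.smul_fst, smul_eq_mul]
          field_simp
          linear_combination hQ - hx
        · simp only [Prod.snd_add, Prod.smul_snd, smul_eq_mul]
          field_simp
          ring
  rw [e, Set.ncard_coe_finset] at h
  exact h

/-- Sets with a positive proportion of points on a conic; two conics. -/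
theorem result (δ ε : ℝ) (hδ : 0 < δ) (hε : 0 < ε) : ∃ P0 : ℕ, ∀ (p : ℕ) [Fact p.Prime],
    P0 ≤ p → ∀ A : Finset (ZMod p × ZMod p), NoFourCollinear A →
    ∀ f : Fin 6 → ZMod p, f ≠ 0 →
    δ * (p : ℝ) ≤ ({Q : ZMod p × ZMod p | Q ∈ A ∧ quad f Q = 0}).ncard →
    (A.card : ℝ) ≤ (2 - 1 / 10 ^ 8) * p ∧
    (({Q : ZMod p × ZMod p | Q ∈ A ∧ quad f Q ≠ 0}).ncard : ℝ) ≤ (1 + ε) * p ∧
    ∀ g : Fin 6 → ZMod p, (∀ k : ZMod p, g ≠ k • f) →
      δ * (p : ℝ) ≤ ({Q : ZMod p × ZMod p | Q ∈ A ∧ quad g Q = 0}).ncard →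
      (({Q : ZMod p × ZMod p | Q ∈ A ∧ quad f Q = 0}).ncard : ℝ) ≤ (1 / 2 + ε) * p ∧
      (({Q : ZMod p × ZMod p | Q ∈ A ∧ quad g Q = 0}).ncard : ℝ) ≤ (1 / 2 + ε) * p ∧
      (A.card : ℝ) ≤ (3 / 2 + ε) * p := by
  classical
  obtain ⟨P0, h⟩ := Pool.Agent.MP193S.conic_all hδ hε
  refine ⟨P0, ?_⟩
  intro p _ hp A hA f hf
  have e : ∀ g : Fin 6 → ZMod p, ({Q : ZMod p × ZMod p | Q ∈ A ∧ quad g Q = 0}).ncard =
      (A.filter fun Q => Pool.Agent.MP193G.ev g Q = 0).card := by
    intro g
    rw [← Set.ncard_coe_finset]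
    congr 1
    ext Q
    simp only [Set.mem_ofPred_eq, Finset.coe_filter]
    rfl
  have e' : ({Q : ZMod p × ZMod p | Q ∈ A ∧ quad f Q ≠ 0}).ncard =
      (A.filter fun Q => Pool.Agent.MP193G.ev f Q ≠ 0).card := by
    rw [← Set.ncard_coe_finset]
    congr 1
    ext Q
    simp only [Set.mem_ofPred_eq, Finset.coe_filter]
    rfl
  rw [e, e']
  intro hd
  obtain ⟨h0, h1, h2⟩ := h p hp A (noFour_of A hA) f hf hd
  refine ⟨h0, h1, ?_⟩
  intro g hg
  rw [e]
  exact h2 g hg

end Pool.Agent.Results.MP_193dd3_co.ConicStructure
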