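import Pool.Agent.Lib.MP_193dd3_co_ARC.Assembly

/-!
Sets of points of the affine plane over `ZMod p` with no four collinear points have at most
`2 p - sqrt p / 7000` points, for all primes `p ≥ 10^8`.
-/

namespace Pool.Agent.Results.MP_193dd3_co.SqrtSaving

open MvPolynomial

/-- At most three points of `A` on every line `{x + s v}`, `v ≠ 0`. -/
def NoFourCollinear {p : ℕ} (A : Finset (ZMod p × ZMod p)) : Prop :=
  ∀ x v : ZMod p × ZMod p, v ≠ 0 →
    ({Q : ZMod p × ZMod p | Q ∈ A ∧ ∃ s : ZMod p, Q = x + s • v}).ncard ≤ 3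

theorem noFour_of {p : ℕ} [Fact p.Prime] (A : Finset (ZMod p × ZMod p))
    (hA : NoFourCollinear A) : Pool.Agent.Lib.Arc3.NoFour A := by
  classical
  intro a b c hab
  -- a point and a direction of the line `a x + b y = c`
  obtain ⟨x, hx⟩ : ∃ x : ZMod p × ZMod p, a * x.1 + b * x.2 = c := by
    by_cases ha : a = 0
    · have hb : b ≠ 0 := by
        intro h; apply hab; rw [ha, h]
      exact ⟨(0, c / b), by field_simp; simp⟩
    · exact ⟨(c / a, 0), by field_simp; simp⟩
  have hv : ((-b, a) : ZMod p × ZMod p) ≠ 0 := by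
    intro h
    apply hab
    have h1 := congrArg Prod.fst h
    have h2 := congrArg Prod.snd h
    simp only [Prod.fst_zero, Prod.snd_zero, neg_eq_zero] at h1 h2
    rw [h1, h2]
  have h := hA x (-b, a) hv
  have e : {Q : ZMod p × ZMod p | Q ∈ A ∧ ∃ s : ZMod p, Q = x + s • ((-b, a) : ZMod p × ZMod p)} =
      ((A.filter (fun Q => a * Q.1 + b * Q.2 = c) : Finset (ZMod p × ZMod p)) :
        Set (ZMod p × ZMod p)) := by
    ext Q
    simp only [Set.mem_ofPred_eq, Finset.coe_filter]
    refine and_congr_right (fun _ => ?_)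
    constructor
    · rintro ⟨s, rfl⟩
      simp only [Prod.fst_add, Prod.snd_add, Prod.smul_fst, Prod.smul_snd, smul_eq_mul]
      linear_combination hx
    · intro hQ
      by_cases ha : a = 0
      · have hb : b ≠ 0 := by
          intro h; apply hab; rw [ha, h]
        refine ⟨-(Q.1 - x.1) / b, ?_⟩
        have h2 : b * (Q.2 - x.2) = 0 := by
          rw [ha] at hQ hx
          linear_combination hQ - hx
        have h3 : Q.2 = x.2 := by
          rcases mul_eq_zero.mp h2 with h | h
          · exact absurd h hb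
          · exact sub_eq_zero.mp h
        refine Prod.ext ?_ ?_
        · simp only [Prod.fst_add, Prod.smul_fst, smul_eq_mul]
          field_simp
          ring
        · simp only [Prod.snd_add, Prod.smul_snd, smul_eq_mul, ha, h3]
          ring
      · refine ⟨(Q.2 - x.2) / a, ?_⟩
        refine Prod.ext ?_ ?_
        · simp only [Prod.fst_add, Prod.smul_fst, smul_eq_mul]
          field_simp
          linear_combination hQ - hx
        · simp only [Prod.snd_add, Prod.smul_snd, smul_eq_mul]
          field_simp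
          ring
  rw [e, Set.ncard_coe_finset] at h
  exact h

/-- The upper bound. -/
theorem result (p : ℕ) [Fact p.Prime] (hp : 10 ^ 8 ≤ p) (A : Finset (ZMod p × ZMod p))
    (hA : NoFourCollinear A) : (A.card : ℝ) ≤ 2 * p - Real.sqrt p / 7000 := by
  have hA' := noFour_of A hA
  have hc := Pool.Agent.Lib.Arc3.card_le_trivial A hA'
  set b := Nat.sqrt (4 * p) + 1 with hb
  have hb1 : 4 * p < b * b := Nat.lt_succ_sqrt _
  obtain ⟨f, hf0, hfd, hfv⟩ := Pool.Agent.Lib.Arc3.exists_van b A (by nlinarith)
  have h1 := Pool.Agent.Lib.Arc3.curve_bound hp A hA' f hf0 hfv b hfd (by omega)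
  have hp0 : (10 : ℝ) ^ 8 ≤ p := by exact_mod_cast hp
  set r := Real.sqrt p with hr
  have hr2 : r * r = p := Real.mul_self_sqrt (by positivity)
  have hr0 : 10 ^ 4 ≤ r := by
    apply Real.le_sqrt_of_sq_le
    linarith
  have hb2 : (b : ℝ) ≤ 2 * r + 1 := by
    have h2 : Nat.sqrt (4 * p) * Nat.sqrt (4 * p) ≤ 4 * p := Nat.sqrt_le _
    have h3 : ((Nat.sqrt (4 * p) : ℕ) : ℝ) ≤ 2 * r := by
      have h4 : ((Nat.sqrt (4 * p) : ℕ) : ℝ) * ((Nat.sqrt (4 * p) : ℕ) : ℝ) ≤ 4 * p := by
        exact_mod_cast h2
      by_contra h5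
      push Not at h5
      nlinarith
    rw [hb]
    push_cast
    linarith
  have hb0 : (0 : ℝ) < b := by
    have : 0 < b := by omega
    exact_mod_cast this
  have h5 : r / 7000 ≤ p / (3000 * b) := by
    rw [div_le_div_iff₀ (by norm_num) (by positivity), ← hr2]
    nlinarith
  linarith

end Pool.Agent.Results.MP_193dd3_co.SqrtSaving
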